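import Pool.Agent.PRAR.R.B

/-! # Section 5: codimension over all blocks -/

set_option autoImplicit false
set_option linter.unusedSectionVars false

open scoped Classical

noncomputable section

namespace PRAR

variable {ι : Type} [Fintype ι] {F : Type} [Field F] [Fintype F]
variable {Y : Type} [AddCommGroup Y] [Module F Y] [Fintype Y]

/-- Number of grid indices supported on `S`. -/
theorem rc_card (n : ℕ) [NeZero n] (S : Finset ι) :
    ((Finset.univ : Finset (ι → Fin n)).filter (fun β => ∀ i, i ∉ S → β i = 0)).card =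
      n ^ S.card := by
  have h1 : (Finset.univ : Finset (ι → Fin n)).filter (fun β => ∀ i, i ∉ S → β i = 0) =
      Fintype.piFinset (fun i => if i ∈ S then (Finset.univ : Finset (Fin n)) else {0}) := by
    ext β
    simp only [Finset.mem_filter, Finset.mem_univ, true_and, Fintype.mem_piFinset]
    refine forall_congr' fun i => ?_
    by_cases hi : i ∈ S <;> simp [hi]
  have h2 : ∀ i : ι, (if i ∈ S then (Finset.univ : Finset (Fin n)) else {0}).card =
      if i ∈ S then n else 1 := by
    intro i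
    by_cases hi : i ∈ S <;> simp [hi]
  rw [h1, Fintype.card_piFinset]
  simp_rw [h2]
  rw [Finset.prod_ite_mem, Finset.univ_inter, Finset.prod_const]

/-- A functional has a kernel of codimension at most one. -/
theorem rc_codim_fun (L : Y →ₗ[F] F) : codim (LinearMap.ker L) ≤ 1 := by
  rw [codim_ker]
  have h := Submodule.finrank_le (LinearMap.range L)
  rwa [Module.finrank_self] at h

theorem rc_card_ridx (P : Fam ι F Y) (j : ι) :
    Fintype.card (RIdx P j) ≤ 2 ^ Fintype.card ι * P.card := by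
  have h := Fintype.card_le_of_injective (fun x : RIdx P j => (x.1 : P.κ × Finset ι))
    Subtype.val_injective
  rw [Fintype.card_prod, Fintype.card_finset] at h
  rw [mul_comm]
  exact h

/-- The slots of the form `k` which are seen by the block index. -/
def rcS (P : Fam ι F Y) (j : ι) (I : Finset ι) (x : RIdx P j) : Finset ι :=
  (P.ty x.1.1).erase j ∩ I.erase j

theorem rcS_card (P : Fam ι F Y) (j : ι) (I : Finset ι) (hj : j ∈ I) (x : RIdx P j)
    (h1 : P.ty x.1.1 ≠ I) (h2 : (P.ty x.1.1).card ≤ I.card) :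
    (rcS P j I x).card + 1 ≤ I.card - 1 := by
  have hsub : rcS P j I x ⊂ I.erase j := by
    refine (Finset.ssubset_iff_subset_ne).2 ⟨Finset.inter_subset_right, fun he => h1 ?_⟩
    have h3 : I ⊆ P.ty x.1.1 := by
      intro i hi
      by_cases hij : i = j
      · rw [hij]; exact x.2.1
      · have h4 : i ∈ rcS P j I x := by
          rw [he]
          exact Finset.mem_erase.2 ⟨hij, hi⟩
        exact Finset.mem_of_mem_erase (Finset.mem_inter.1 h4).1
    exact (Finset.eq_of_subset_of_card_le h3 h2).symm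
  have h5 := Finset.card_lt_card hsub
  rw [Finset.card_erase_of_mem hj] at h5
  omega

/-- The functional only depends on the block index restricted to the seen slots. -/
theorem rc_rfun (P : Fam ι F Y) (j : ι) (I : Finset ι) (n : ℕ) [NeZero n]
    (yb : ι → Fin n → Y × Y) (β : ι → Fin n) (hβ : ∀ i, i ∉ I.erase j → β i = 0)
    (x : RIdx P j) (u : Y) :
    rfun P j (bY yb β) (bB yb β) x u =
      rfun P j (bY yb (fun i => if i ∈ rcS P j I x then β i else 0))
        (bB yb (fun i => if i ∈ rcS P j I x then β i else 0)) x u := by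
  show P.p x.1.1 _ = P.p x.1.1 _
  apply (P.lin x.1.1).congr
  intro i hi
  by_cases hij : i = j
  · subst hij
    simp
  · have hβi : β i = if i ∈ rcS P j I x then β i else 0 := by
      by_cases hiI : i ∈ I.erase j
      · have : i ∈ rcS P j I x :=
          Finset.mem_inter.2 ⟨Finset.mem_erase.2 ⟨hij, hi⟩, hiI⟩
        rw [if_pos this]
      · rw [hβ i hiI]
        simp
    rw [Function.update_of_ne hij, Function.update_of_ne hij]
    unfold bY bB
    by_cases hJ : i ∈ x.1.2
    · rw [Finset.piecewise_eq_of_mem _ _ _ hJ, Finset.piecewise_eq_of_mem _ _ _ hJ]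
      exact congrArg (fun t => (yb i t).2) hβi
    · rw [Finset.piecewise_eq_of_notMem _ _ _ hJ, Finset.piecewise_eq_of_notMem _ _ _ hJ]
      exact congrArg (fun t => (yb i t).1) hβi

theorem oth_codim (P : Fam ι F Y) (j : ι) (I : Finset ι) (hj : j ∈ I) (n : ℕ) [NeZero n]
    (yb : ι → Fin n → Y × Y) :
    n * codim (⨅ β ∈ (Finset.univ : Finset (ι → Fin n)).filter
        (fun β => ∀ i, i ∉ I.erase j → β i = 0), Koth P j (bY yb β) (bB yb β) I) ≤
      2 ^ Fintype.card ι * n ^ (I.card - 1) * P.card := by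
  set Ox : Finset (RIdx P j) := (Finset.univ : Finset (RIdx P j)).filter
    (fun x => P.ty x.1.1 ≠ I ∧ (P.ty x.1.1).card ≤ I.card) with hOx
  set s : Finset (Σ _ : RIdx P j, (ι → Fin n)) :=
    Ox.sigma (fun x => (Finset.univ : Finset (ι → Fin n)).filter
      (fun β => ∀ i, i ∉ rcS P j I x → β i = 0)) with hs
  have hle : (⨅ p ∈ s, LinearMap.ker (rfun P j (bY yb p.2) (bB yb p.2) p.1)) ≤
      ⨅ β ∈ (Finset.univ : Finset (ι → Fin n)).filter
        (fun β => ∀ i, i ∉ I.erase j → β i = 0), Koth P j (bY yb β) (bB yb β) I := by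
    intro u hu
    simp only [Submodule.mem_iInf] at hu ⊢
    intro β hβ
    unfold Koth
    simp only [Submodule.mem_iInf]
    intro x hx
    rw [LinearMap.mem_ker, rc_rfun P j I n yb β (Finset.mem_filter.1 hβ).2 x u]
    have h1 := hu ⟨x, fun i => if i ∈ rcS P j I x then β i else 0⟩ (by
      rw [hs, Finset.mem_sigma]
      refine ⟨hx, Finset.mem_filter.2 ⟨Finset.mem_univ _, fun i hi => ?_⟩⟩
      simp [hi])
    rw [LinearMap.mem_ker] at h1
    exact h1
  have h1 := codim_mono hle
  have h2 := codim_iInf_le s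
    (fun p => LinearMap.ker (rfun P j (bY yb p.2) (bB yb p.2) p.1)) (fun _ => 1)
    (fun p _ => rc_codim_fun _)
  have h3 : (∑ _k ∈ s, 1) = ∑ x ∈ Ox, n ^ (rcS P j I x).card := by
    rw [Finset.sum_const, smul_eq_mul, mul_one, hs, Finset.card_sigma]
    exact Finset.sum_congr rfl fun x _ => rc_card n _
  have h4 : n * codim (⨅ β ∈ (Finset.univ : Finset (ι → Fin n)).filter
        (fun β => ∀ i, i ∉ I.erase j → β i = 0), Koth P j (bY yb β) (bB yb β) I) ≤
      n * ∑ x ∈ Ox, n ^ (rcS P j I x).card := by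
    apply Nat.mul_le_mul_left
    exact h1.trans (h2.trans (le_of_eq h3))
  refine h4.trans ?_
  rw [Finset.mul_sum]
  have h5 : ∀ x ∈ Ox, n * n ^ (rcS P j I x).card ≤ n ^ (I.card - 1) := by
    intro x hx
    have h6 := (Finset.mem_filter.1 hx).2
    rw [← pow_succ']
    exact Nat.pow_le_pow_right (NeZero.pos n) (rcS_card P j I hj x h6.1 h6.2)
  refine (Finset.sum_le_sum h5).trans ?_
  rw [Finset.sum_const, smul_eq_mul]
  have h7 : Ox.card ≤ 2 ^ Fintype.card ι * P.card :=
    (Finset.card_le_univ _).trans (rc_card_ridx P j)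
  calc Ox.card * n ^ (I.card - 1) ≤ (2 ^ Fintype.card ι * P.card) * n ^ (I.card - 1) :=
        Nat.mul_le_mul_right _ h7
    _ = 2 ^ Fintype.card ι * n ^ (I.card - 1) * P.card := by ring

theorem blocks_codim (P : Fam ι F Y) (j : ι) (I : Finset ι) (hj : j ∈ I) (n : ℕ) [NeZero n]
    (yb : ι → Fin n → Y × Y) (κ : ℝ)
    (h : ∀ β : ι → Fin n, (∀ i, i ∉ I.erase j → β i = 0) →
      κ < prj P j (bY yb β) (bB yb β) I) :
    ∃ K : Submodule F Y,
      (n : ℝ) * codim K ≤ 2 ^ Fintype.card ι * (n : ℝ) ^ (I.card - 1) * P.card +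
        (n : ℝ) ^ I.card * ((P.cnt I : ℝ) * 2 ^ (I.card - 1) - κ) ∧
      ∀ u ∈ K, ∀ β : ι → Fin n, (∀ i, i ∉ I.erase j → β i = 0) → ∀ J, J ⊆ I.erase j →
        P.vec I (Function.update (J.piecewise (bB yb β) (bY yb β)) j u) = 0 := by
  set B : Finset (ι → Fin n) := (Finset.univ : Finset (ι → Fin n)).filter
    (fun β => ∀ i, i ∉ I.erase j → β i = 0) with hB
  set K1 : Submodule F Y := ⨅ β ∈ B, Koth P j (bY yb β) (bB yb β) I with hK1
  have key : ∀ s : Finset (ι → Fin n), s ⊆ B →
      (codim (K1 ⊓ ⨅ β ∈ s, Kin P j (bY yb β) (bB yb β) I) : ℝ) ≤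
        codim K1 + s.card * ((P.cnt I : ℝ) * 2 ^ (I.card - 1) - κ) := by
    intro s
    induction s using Finset.cons_induction with
    | empty =>
      intro _
      simp
    | cons β s hβs ih =>
      intro hsub
      have hβB : β ∈ B := hsub (Finset.mem_cons_self β s)
      have ih' := ih (fun x hx => hsub (Finset.mem_cons_of_mem hx))
      have e1 : (K1 ⊓ ⨅ γ ∈ Finset.cons β s hβs, Kin P j (bY yb γ) (bB yb γ) I) =
          (K1 ⊓ ⨅ γ ∈ s, Kin P j (bY yb γ) (bB yb γ) I) ⊓ Kin P j (bY yb β) (bB yb β) I := by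
        ext u
        simp only [Submodule.mem_inf, Submodule.mem_iInf, Finset.mem_cons]
        constructor
        · rintro ⟨h1, h2⟩
          exact ⟨⟨h1, fun γ hγ => h2 γ (Or.inr hγ)⟩, h2 β (Or.inl rfl)⟩
        · rintro ⟨⟨h1, h2⟩, h3⟩
          refine ⟨h1, fun γ hγ => ?_⟩
          rcases hγ with rfl | hγ
          · exact h3
          · exact h2 γ hγ
      have hle : (K1 ⊓ ⨅ β ∈ s, Kin P j (bY yb β) (bB yb β) I) ≤
          Koth P j (bY yb β) (bB yb β) I :=
        inf_le_left.trans (iInf₂_le β hβB)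
      have h1 := block_codim P j (bY yb β) (bB yb β) I hj _ hle
      rw [e1]
      have h2 : (codim ((K1 ⊓ ⨅ β ∈ s, Kin P j (bY yb β) (bB yb β) I) ⊓
          Kin P j (bY yb β) (bB yb β) I) : ℝ) + prj P j (bY yb β) (bB yb β) I ≤
          codim (K1 ⊓ ⨅ β ∈ s, Kin P j (bY yb β) (bB yb β) I) +
            (P.cnt I : ℝ) * 2 ^ (I.card - 1) := by
        exact_mod_cast h1
      have h3 := h β (Finset.mem_filter.1 hβB).2
      rw [Finset.card_cons]
      push_cast
      linarith
  refine ⟨K1 ⊓ ⨅ β ∈ B, Kin P j (bY yb β) (bB yb β) I, ?_, ?_⟩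
  · have h1 := key B (Finset.Subset.refl B)
    have hcard : B.card = n ^ (I.card - 1) := by
      rw [hB, rc_card, Finset.card_erase_of_mem hj]
    have h2 := oth_codim P j I hj n yb
    rw [← hB, ← hK1] at h2
    have h2' : (n : ℝ) * codim K1 ≤ 2 ^ Fintype.card ι * (n : ℝ) ^ (I.card - 1) * P.card := by
      exact_mod_cast h2
    have hpow : (n : ℝ) ^ I.card = n * (n : ℝ) ^ (I.card - 1) := by
      have hpos : 0 < I.card := Finset.card_pos.2 ⟨j, hj⟩
      conv_lhs => rw [← Nat.sub_add_cancel hpos]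
      rw [pow_succ]
      ring
    rw [hcard] at h1
    push_cast at h1
    have hn : (0 : ℝ) ≤ n := by positivity
    have h4 := mul_le_mul_of_nonneg_left h1 hn
    rw [hpow]
    calc (n : ℝ) * codim (K1 ⊓ ⨅ β ∈ B, Kin P j (bY yb β) (bB yb β) I)
        ≤ n * (codim K1 + (n : ℝ) ^ (I.card - 1) * ((P.cnt I : ℝ) * 2 ^ (I.card - 1) - κ)) := h4
      _ = n * codim K1 + n * (n : ℝ) ^ (I.card - 1) *
          ((P.cnt I : ℝ) * 2 ^ (I.card - 1) - κ) := by ring
      _ ≤ _ := by linarith
  · intro u hu β hβ J hJ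
    have hβB : β ∈ B := Finset.mem_filter.2 ⟨Finset.mem_univ _, hβ⟩
    have h1 : u ∈ Kin P j (bY yb β) (bB yb β) I :=
      (Submodule.mem_iInf _).1 ((Submodule.mem_iInf _).1 (Submodule.mem_inf.1 hu).2 β) hβB
    funext k
    have h2 : j ∈ P.ty k.1 := by rw [k.2]; exact hj
    have h3 : J ⊆ (P.ty k.1).erase j := by rw [k.2]; exact hJ
    unfold Kin at h1
    simp only [Submodule.mem_iInf] at h1
    have h4 := h1 ⟨(k.1, J), h2, h3⟩ (Finset.mem_filter.2 ⟨Finset.mem_univ _, k.2⟩)
    rw [LinearMap.mem_ker] at h4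
    exact h4

end PRAR
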