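import Pool.Agent.PRAR.R.Def

/-! # Section 5: from blocks to grid probabilities -/

set_option autoImplicit false
set_option linter.unusedSectionVars false

open scoped Classical

noncomputable section

namespace PRAR

variable {ι : Type} [Fintype ι] {F : Type} [Field F] [Fintype F]
variable {Y V : Type} [AddCommGroup Y] [Module F Y] [Fintype Y] [AddCommGroup V] [Module F V]
  [Fintype V]

/-- Independent coordinates. -/
theorem rd_pow {X : Type} [Fintype X] (m : ℕ) (p : X → Prop) :
    prob (fun w : Fin m → X => ∀ c, p (w c)) = prob p ^ m := by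
  unfold prob
  rw [div_pow]
  congr 1
  · rw [← Nat.cast_pow]
    congr 1
    have h1 := Fintype.card_piFinset (fun _ : Fin m => Finset.univ.filter p)
    rw [Finset.prod_const, Finset.card_univ, Fintype.card_fin] at h1
    rw [← h1]
    congr 1
    ext w
    simp [Fintype.mem_piFinset]
  · rw [Fintype.card_fun, Fintype.card_fin, Nat.cast_pow]

/-- Regrouping `2n` copies as `n` pairs. -/
def rd_eq (X : Type) (n : ℕ) : (Fin n → X × X) ≃ (Fin (2 * n) → X) where
  toFun p c := if (finProdFinEquiv.symm c : Fin 2 × Fin n).1 = 0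
    then (p (finProdFinEquiv.symm c : Fin 2 × Fin n).2).1
    else (p (finProdFinEquiv.symm c : Fin 2 × Fin n).2).2
  invFun w a := (w (finProdFinEquiv ((0 : Fin 2), a)), w (finProdFinEquiv ((1 : Fin 2), a)))
  left_inv p := by
    funext a
    simp
  right_inv w := by
    funext c
    obtain ⟨⟨s, a⟩, rfl⟩ := (finProdFinEquiv (m := 2) (n := n)).surjective c
    simp only [Equiv.symm_apply_apply]
    by_cases hs : s = 0
    · subst hs; simp
    · have : s = 1 := by omega
      subst this; simp

theorem grid_lower {I : Finset ι} {f : (ι → Y) → V} (hf : MLin F I f) {j : ι} (hj : j ∈ I)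
    (n : ℕ) [NeZero n] (G : (ι → Y) → (ι → Y) → Prop) (D : ℝ)
    (h : ∀ yb : ι → Fin n → Y × Y,
      (∀ β : ι → Fin n, (∀ i, i ∉ I.erase j → β i = 0) → G (bY yb β) (bB yb β)) →
      ∃ K : Submodule F Y, (codim K : ℝ) ≤ D ∧
        ∀ u ∈ K, ∀ β : ι → Fin n, (∀ i, i ∉ I.erase j → β i = 0) → ∀ J, J ⊆ I.erase j →
          f (Function.update (J.piecewise (bB yb β) (bY yb β)) j u) = 0) :
    prob (fun yb : (ι → Y) × (ι → Y) => G yb.1 yb.2) ^ (n ^ (I.card - 1)) *
      (qq F) ^ (-(2 * n * D)) ≤ ZU f (2 * n) := by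
  have hq : 0 < qq F := qq_pos F
  have hq1 : 1 ≤ qq F := (one_lt_qq F).le
  obtain ⟨good, hgd⟩ : ∃ g : (ι → Fin n → Y × Y) → Prop, g = fun yb =>
    ∀ β : ι → Fin n, (∀ i, i ∉ I.erase j → β i = 0) → G (bY yb β) (bB yb β) := ⟨_, rfl⟩
  let Ev : (ι → Fin (2 * n) → Y) → Prop := fun z =>
    ∀ α : ι → Fin (2 * n), f (fun i => z i (α i)) = 0
  let Ph : (ι → Fin n → Y × Y) ≃ (ι → Fin (2 * n) → Y) :=
    Equiv.piCongrRight (fun _ : ι => rd_eq Y n)
  -- the grid probability
  have hZU : ZU f (2 * n) = avg (fun yb : ι → Fin n → Y × Y =>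
      prob (fun w : Fin (2 * n) → Y => Ev (Function.update (Ph yb) j w))) := by
    rw [avg_equiv Ph (fun z => prob (fun w : Fin (2 * n) → Y => Ev (Function.update z j w)))]
    exact (prob_update j Ev).symm
  -- the bound for good blocks
  have hgood : ∀ yb, good yb → (qq F) ^ (-(2 * n * D)) ≤
      prob (fun w : Fin (2 * n) → Y => Ev (Function.update (Ph yb) j w)) := by
    intro yb hyb
    rw [hgd] at hyb
    obtain ⟨K, hK, hu⟩ := h yb hyb
    have h1 : (qq F) ^ (-(2 * n * D)) ≤
        prob (fun w : Fin (2 * n) → Y => ∀ c, w c ∈ K) := by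
      rw [rd_pow (2 * n) (fun u : Y => u ∈ K), prob_mem, ← pow_mul, inv_pow,
        ← Real.rpow_natCast, ← Real.rpow_neg hq.le]
      apply Real.rpow_le_rpow_of_exponent_le hq1
      push_cast
      have hn : (0 : ℝ) ≤ n := Nat.cast_nonneg n
      nlinarith
    refine h1.trans (prob_mono ?_)
    intro w hw α
    let sd : ι → Fin 2 := fun i => (finProdFinEquiv.symm (α i) : Fin 2 × Fin n).1
    let ai : ι → Fin n := fun i => (finProdFinEquiv.symm (α i) : Fin 2 × Fin n).2
    let β : ι → Fin n := fun i => if i ∈ I.erase j then ai i else 0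
    let J : Finset ι := (I.erase j).filter (fun i => sd i ≠ 0)
    have hβ : ∀ i, i ∉ I.erase j → β i = 0 := fun i hi => if_neg hi
    have h2 := hu (w (α j)) (hw (α j)) β hβ J (Finset.filter_subset _ _)
    rw [← h2]
    apply hf.congr
    intro i hi
    by_cases hij : i = j
    · subst hij; simp
    · have hie : i ∈ I.erase j := Finset.mem_erase.2 ⟨hij, hi⟩
      have hβi : β i = ai i := if_pos hie
      rw [Function.update_of_ne hij, Function.update_of_ne hij]
      have hPh : Ph yb i (α i) = if sd i = 0 then (yb i (ai i)).1 else (yb i (ai i)).2 := rfl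
      rw [hPh]
      by_cases hs : sd i = 0
      · have hiJ : i ∉ J := by
          intro hh
          exact (Finset.mem_filter.1 hh).2 hs
        rw [if_pos hs, Finset.piecewise_eq_of_notMem _ _ _ hiJ]
        show _ = (yb i (β i)).1
        rw [hβi]
      · have hiJ : i ∈ J := Finset.mem_filter.2 ⟨hie, hs⟩
        rw [if_neg hs, Finset.piecewise_eq_of_mem _ _ _ hiJ]
        show _ = (yb i (β i)).2
        rw [hβi]
  -- probability of good blocks
  have hsid := sid (X := Y × Y) (fun z : ι → Y × Y => G (fun i => (z i).1) (fun i => (z i).2))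
    (I.erase j) n
  have hG : prob (fun z : ι → Y × Y => G (fun i => (z i).1) (fun i => (z i).2)) =
      prob (fun yb : (ι → Y) × (ι → Y) => G yb.1 yb.2) := by
    let e : (ι → Y × Y) ≃ (ι → Y) × (ι → Y) :=
      { toFun := fun z => (fun i => (z i).1, fun i => (z i).2)
        invFun := fun p i => (p.1 i, p.2 i)
        left_inv := fun _ => rfl
        right_inv := fun _ => rfl }
    exact prob_equiv e (fun yb : (ι → Y) × (ι → Y) => G yb.1 yb.2)
  rw [hG, Finset.card_erase_of_mem hj] at hsid
  rw [hZU]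
  have hle : ∀ yb : ι → Fin n → Y × Y,
      (qq F) ^ (-(2 * n * D)) * (if good yb then (1 : ℝ) else 0) ≤
      prob (fun w : Fin (2 * n) → Y => Ev (Function.update (Ph yb) j w)) := by
    intro yb
    by_cases hyb : good yb
    · simp only [hyb, if_true, mul_one]; exact hgood yb hyb
    · simp only [hyb, if_false, mul_zero]; exact prob_nonneg _
  refine le_trans ?_ (avg_mono hle)
  rw [avg_const_mul, ← prob_eq_avg, mul_comm]
  refine mul_le_mul_of_nonneg_left (hsid.trans ?_) (Real.rpow_nonneg hq.le _)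
  rw [hgd]
  exact le_rfl

end PRAR
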