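import Pool.Agent.PRAR.R.A
import Pool.Agent.PRAR.R.C
import Pool.Agent.PRAR.R.D

/-! # Lemma R -/

set_option autoImplicit false
set_option linter.unusedSectionVars false

open scoped Classical

noncomputable section

namespace PRAR

/-- Union bound over a finite set. -/
theorem rz_union {κ α : Type*} [Fintype α] (s : Finset κ) (p : κ → α → Prop) :
    prob (fun x => ∃ j ∈ s, p j x) ≤ ∑ j ∈ s, prob (p j) := by
  induction s using Finset.induction_on with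
  | empty =>
    rw [Finset.sum_empty]
    unfold prob
    simp
  | insert i s hi ih =>
    rw [Finset.sum_insert hi]
    have h1 : prob (fun x => ∃ j ∈ insert i s, p j x) =
        prob (fun x => p i x ∨ ∃ j ∈ s, p j x) := by
      refine prob_congr fun x => ?_
      simp
    rw [h1]
    exact (prob_or_le _ _).trans (add_le_add le_rfl ih)

/-- The vector of all forms of type `I` has type `I`. -/
theorem rz_vec {ι : Type} [Fintype ι] {F : Type} [Field F] {Y : Type} [AddCommGroup Y]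
    [Module F Y] (P : Fam ι F Y) (I : Finset ι) : MLin F I (P.vec I) := by
  refine ⟨?_, ?_, ?_⟩
  · intro i hi y u v
    funext k
    have hk := k.2
    exact (P.lin k.1).add i (by rw [hk]; exact hi) y u v
  · intro i hi y c u
    funext k
    have hk := k.2
    exact (P.lin k.1).smul i (by rw [hk]; exact hi) y c u
  · intro i hi y u
    funext k
    have hk := k.2
    exact (P.lin k.1).off i (by rw [hk]; exact hi) y u

/-- Real exponents: from a power bound to the bound itself. -/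
theorem rz_root {p q e : ℝ} (hp : 0 ≤ p) (hq : 0 < q) {m : ℕ} (hm : m ≠ 0)
    (h : p ^ m ≤ q ^ ((m : ℝ) * e)) : p ≤ q ^ e := by
  have h1 : q ^ ((m : ℝ) * e) = (q ^ e) ^ m := by
    rw [mul_comm, Real.rpow_mul hq.le, Real.rpow_natCast]
  rw [h1] at h
  exact le_of_pow_le_pow_left₀ hm (Real.rpow_nonneg hq.le e) h

/-- The bound for one type. -/
theorem rz_one {ι : Type} [Fintype ι] (K E0 C : ℕ) (hE0 : 1 ≤ E0) {F : Type} [Field F] [Fintype F]
    {Y : Type} [AddCommGroup Y] [Module F Y] [Fintype Y] (ss : ℕ) (hss : 1 ≤ ss) (n : ℕ)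
    (hn : n = E0 * (2 ^ Fintype.card ι * K + C + Fintype.card ι) + 1)
    (P : Fam ι F Y) (j : ι) (hP : P.card ≤ K * ss) (I : Finset ι) (hj : j ∈ I)
    (hR : Reg F I (P.vec I) (P.cnt I) ((ss : ℝ) / E0) (2 * n)) :
    prob (fun yb : (ι → Y) × (ι → Y) =>
      ((2 : ℝ) ^ Fintype.card ι + 1) * ((ss : ℝ) / E0) < prj P j yb.1 yb.2 I) ≤
      (qq F) ^ (-(2 * ((C : ℝ) + Fintype.card ι) * ss)) := by
  haveI : NeZero n := ⟨by omega⟩
  set N := Fintype.card ι with hN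
  set τ : ℝ := (ss : ℝ) / E0 with hτ
  set κ : ℝ := ((2 : ℝ) ^ N + 1) * τ with hκ
  have hq := qq_pos F
  have hq1 := one_lt_qq F
  have hn0 : (0 : ℝ) < n := by
    have : 0 < n := by omega
    exact_mod_cast this
  have hE0' : (0 : ℝ) < E0 := by exact_mod_cast hE0
  have hτ0 : 0 ≤ τ := by positivity
  obtain ⟨l, hl⟩ : ∃ l, I.card = l + 1 := by
    have : 0 < I.card := Finset.card_pos.2 ⟨j, hj⟩
    exact ⟨I.card - 1, by omega⟩
  have hlN : l + 1 ≤ N := by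
    rw [← hl]
    exact Finset.card_le_univ I
  set D : ℝ := ((2 : ℝ) ^ N * (n : ℝ) ^ (I.card - 1) * P.card +
        (n : ℝ) ^ I.card * ((P.cnt I : ℝ) * 2 ^ (I.card - 1) - κ)) / n with hD
  have hgrid := grid_lower (rz_vec P I) hj n (fun y b => κ < prj P j y b I) D (by
    intro yb hyb
    obtain ⟨K1, hK1, hK2⟩ := blocks_codim P j I hj n yb κ hyb
    refine ⟨K1, ?_, hK2⟩
    rw [hD, le_div_iff₀ hn0, mul_comm]
    exact hK1)
  have hreg : ZU (P.vec I) (2 * n) ≤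
      (qq F) ^ (-(((P.cnt I : ℝ) - τ) * ((2 * n : ℕ) : ℝ) ^ I.card)) := hR
  set p := prob (fun yb : (ι → Y) × (ι → Y) => κ < prj P j yb.1 yb.2 I) with hp
  have h1 : p ^ (n ^ (I.card - 1)) * (qq F) ^ (-(2 * n * D)) ≤
      (qq F) ^ (-(((P.cnt I : ℝ) - τ) * ((2 * n : ℕ) : ℝ) ^ I.card)) := hgrid.trans hreg
  have h2 : p ^ (n ^ (I.card - 1)) ≤
      (qq F) ^ (2 * n * D - ((P.cnt I : ℝ) - τ) * ((2 * n : ℕ) : ℝ) ^ I.card) := by
    have h3 : (qq F) ^ (2 * n * D - ((P.cnt I : ℝ) - τ) * ((2 * n : ℕ) : ℝ) ^ I.card) =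
        (qq F) ^ (-(((P.cnt I : ℝ) - τ) * ((2 * n : ℕ) : ℝ) ^ I.card)) *
          ((qq F) ^ (-(2 * n * D)))⁻¹ := by
      rw [← Real.rpow_neg hq.le, ← Real.rpow_add hq]
      congr 1
      ring
    rw [h3, ← div_eq_mul_inv, le_div_iff₀ (Real.rpow_pos_of_pos hq _)]
    exact h1
  set e : ℝ := 2 ^ (N + 1) * (P.card : ℝ) - 2 * n * κ + 2 ^ (l + 1) * n * τ with he
  have h4 : 2 * n * D - ((P.cnt I : ℝ) - τ) * ((2 * n : ℕ) : ℝ) ^ I.card =
      ((n ^ (I.card - 1) : ℕ) : ℝ) * e := by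
    rw [hD, he, hl]
    have hne : (n : ℝ) ≠ 0 := hn0.ne'
    simp only [Nat.add_sub_cancel]
    push_cast
    field_simp
    ring
  rw [h4] at h2
  have hm : n ^ (I.card - 1) ≠ 0 := pow_ne_zero _ (NeZero.ne n)
  have h5 : p ≤ (qq F) ^ e := rz_root (prob_nonneg _) hq hm h2
  refine h5.trans (Real.rpow_le_rpow_of_exponent_le hq1.le ?_)
  have h6 : (P.card : ℝ) ≤ K * ss := by exact_mod_cast hP
  have h7 : ((2 : ℝ) ^ N * K + C + N) * ss ≤ n * τ := by
    have : (n : ℝ) = E0 * (2 ^ N * K + C + N) + 1 := by rw [hn]; push_cast; ring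
    rw [this]
    have h8 : (E0 : ℝ) * τ = ss := by rw [hτ]; field_simp
    have h9 : ((E0 : ℝ) * (2 ^ N * K + C + N) + 1) * τ =
        (2 ^ N * K + C + N) * (E0 * τ) + τ := by ring
    rw [h9, h8]
    linarith
  have h10 : (2 : ℝ) ^ (l + 1) ≤ 2 * 2 ^ N := by
    have : (2 : ℝ) ^ (l + 1) ≤ 2 ^ N := pow_le_pow_right₀ (by norm_num) hlN
    have h0 : (0 : ℝ) < 2 ^ N := by positivity
    linarith
  have h11 : (2 : ℝ) ^ (l + 1) * n * τ ≤ 2 * 2 ^ N * n * τ := by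
    have : 0 ≤ (n : ℝ) * τ := by positivity
    nlinarith
  have h12 : (2 : ℝ) ^ (N + 1) * (P.card : ℝ) ≤ 2 ^ (N + 1) * (K * ss) :=
    mul_le_mul_of_nonneg_left h6 (by positivity)
  rw [he, hκ]
  have h13 : (2 : ℝ) ^ (N + 1) = 2 * 2 ^ N := by ring
  rw [h13] at h12 ⊢
  nlinarith

theorem lemR (ι : Type) [Fintype ι] : StmtR ι := by
  refine ⟨2 ^ Fintype.card ι * (2 ^ Fintype.card ι + 1), ?_⟩
  intro K E0 C hE0
  refine ⟨2 * (E0 * (2 ^ Fintype.card ι * K + C + Fintype.card ι) + 1), by omega, ?_⟩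
  intro F _ _ Y _ _ _ ss hss P j hP hR
  set N := Fintype.card ι with hN
  set τ : ℝ := (ss : ℝ) / E0 with hτ
  have hq := qq_pos F
  have hq2 := two_le_qq F
  have hτ0 : 0 ≤ τ := by positivity
  set S := (Finset.univ : Finset (Finset ι)).filter (fun I => j ∈ I) with hS
  have hScard : (S.card : ℝ) ≤ 2 ^ N := by
    have h1 : S.card ≤ (Finset.univ : Finset (Finset ι)).card := Finset.card_filter_le _ _
    rw [Finset.card_univ, Fintype.card_finset] at h1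
    exact_mod_cast h1
  have hincl : ∀ yb : (ι → Y) × (ι → Y),
      ((2 ^ N * (2 ^ N + 1) : ℕ) : ℝ) * τ < dep P j yb.1 yb.2 →
      ∃ I ∈ S, ((2 : ℝ) ^ N + 1) * τ < prj P j yb.1 yb.2 I := by
    intro yb h
    by_contra hcon
    push Not at hcon
    have h1 : (dep P j yb.1 yb.2 : ℝ) ≤ ∑ I ∈ S, (prj P j yb.1 yb.2 I : ℝ) := by
      exact_mod_cast dep_le_sum P j yb.1 yb.2
    have h2 : ∑ I ∈ S, (prj P j yb.1 yb.2 I : ℝ) ≤ ∑ I ∈ S, ((2 : ℝ) ^ N + 1) * τ :=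
      Finset.sum_le_sum hcon
    rw [Finset.sum_const, nsmul_eq_mul] at h2
    have h3 : (S.card : ℝ) * (((2 : ℝ) ^ N + 1) * τ) ≤ 2 ^ N * (((2 : ℝ) ^ N + 1) * τ) :=
      mul_le_mul_of_nonneg_right hScard (by positivity)
    push_cast at h
    linarith
  refine (prob_mono hincl).trans ((rz_union S _).trans ?_)
  have hone : ∀ I ∈ S, prob (fun yb : (ι → Y) × (ι → Y) =>
      ((2 : ℝ) ^ N + 1) * τ < prj P j yb.1 yb.2 I) ≤
      (qq F) ^ (-(2 * ((C : ℝ) + N) * ss)) := by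
    intro I hI
    have hj : j ∈ I := by
      rw [hS, Finset.mem_filter] at hI
      exact hI.2
    exact rz_one K E0 C hE0 ss hss _ rfl P j hP I hj (hR I hj)
  refine (Finset.sum_le_sum hone).trans ?_
  rw [Finset.sum_const, nsmul_eq_mul]
  have h1 : (qq F) ^ (-(2 * ((C : ℝ) + N) * ss)) ≤ (qq F) ^ (-((C * ss + N : ℕ) : ℝ)) := by
    apply Real.rpow_le_rpow_of_exponent_le (one_lt_qq F).le
    push_cast
    have h2 : (1 : ℝ) ≤ ss := by exact_mod_cast hss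
    have h3 : (0 : ℝ) ≤ C := by positivity
    have h4 : (0 : ℝ) ≤ N := by positivity
    nlinarith [mul_nonneg h4 (sub_nonneg.2 h2), mul_nonneg h3 (sub_nonneg.2 h2)]
  have h2 : (qq F) ^ (-((C * ss + N : ℕ) : ℝ)) = (qq F)⁻¹ ^ (C * ss) * (qq F)⁻¹ ^ N := by
    rw [Real.rpow_neg hq.le, Real.rpow_natCast, pow_add, mul_inv, inv_pow, inv_pow]
  have h3 : (2 : ℝ) ^ N * (qq F)⁻¹ ^ N ≤ 1 := by
    rw [← mul_pow]
    apply pow_le_one₀
    · positivity
    · rw [← div_eq_mul_inv, div_le_one hq]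
      exact hq2
  have h4 : (0 : ℝ) ≤ (qq F)⁻¹ ^ (C * ss) := by positivity
  have h5 : (0 : ℝ) ≤ (qq F) ^ (-(2 * ((C : ℝ) + N) * ss)) := Real.rpow_nonneg hq.le _
  calc (S.card : ℝ) * (qq F) ^ (-(2 * ((C : ℝ) + N) * ss))
      ≤ 2 ^ N * (qq F) ^ (-(2 * ((C : ℝ) + N) * ss)) :=
        mul_le_mul_of_nonneg_right hScard h5
    _ ≤ 2 ^ N * ((qq F)⁻¹ ^ (C * ss) * (qq F)⁻¹ ^ N) := by
        rw [← h2]
        exact mul_le_mul_of_nonneg_left h1 (by positivity)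
    _ = (qq F)⁻¹ ^ (C * ss) * (2 ^ N * (qq F)⁻¹ ^ N) := by ring
    _ ≤ (qq F)⁻¹ ^ (C * ss) * 1 := mul_le_mul_of_nonneg_left h3 h4
    _ = (qq F)⁻¹ ^ (C * ss) := mul_one _

end PRAR
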