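import Pool.Agent.PRAR.R.Def

/-! # Section 5: the total number of relations -/

set_option autoImplicit false
set_option linter.unusedSectionVars false

open scoped Classical

noncomputable section

namespace PRAR

variable {ι : Type} [Fintype ι] {F : Type} [Field F] [Fintype F]
variable {Y : Type} [AddCommGroup Y] [Module F Y] [Fintype Y]

theorem ra_one {V W : Type} [AddCommGroup V] [Module F V] [FiniteDimensional F V]
    [AddCommGroup W] [Module F W] (S : Submodule F V) (f : V →ₗ[F] W) :
    Module.finrank F S = Module.finrank F (S.map f) +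
      Module.finrank F (S ⊓ LinearMap.ker f : Submodule F V) := by
  rw [← LinearMap.finrank_range_add_finrank_ker (f.domRestrict S), LinearMap.range_domRestrict,
    LinearMap.ker_domRestrict]
  congr 1
  rw [← Submodule.map_comap_subtype, Submodule.finrank_map_subtype_eq]

theorem ra_many {V : Type} [AddCommGroup V] [Module F V] [FiniteDimensional F V]
    {σ : Type} (W : σ → Type) [∀ i, AddCommGroup (W i)] [∀ i, Module F (W i)]
    [∀ i, FiniteDimensional F (W i)]
    (S : Submodule F V) (f : (i : σ) → V →ₗ[F] W i) (s : Finset σ) :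
    Module.finrank F S ≤ Module.finrank F (S ⊓ ⨅ i ∈ s, LinearMap.ker (f i) : Submodule F V) +
      ∑ i ∈ s, Module.finrank F (S.map (f i)) := by
  induction s using Finset.induction_on with
  | empty =>
    have h : (⨅ i ∈ (∅ : Finset σ), LinearMap.ker (f i)) = ⊤ := by
      rw [eq_top_iff]
      exact le_iInf fun i => le_iInf fun hi => absurd hi (Finset.notMem_empty i)
    rw [h, inf_top_eq, Finset.sum_empty, add_zero]
  | insert i s hi ih =>
    rw [Finset.sum_insert hi, Finset.iInf_insert]
    have h1 := ra_one (S ⊓ ⨅ i ∈ s, LinearMap.ker (f i)) (f i)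
    have h2 : Module.finrank F ((S ⊓ ⨅ i ∈ s, LinearMap.ker (f i)).map (f i)) ≤
        Module.finrank F (S.map (f i)) :=
      Submodule.finrank_mono (Submodule.map_mono inf_le_left)
    have h3 : S ⊓ (⨅ i ∈ s, LinearMap.ker (f i)) ⊓ LinearMap.ker (f i) =
        S ⊓ (LinearMap.ker (f i) ⊓ ⨅ i ∈ s, LinearMap.ker (f i)) := by
      rw [inf_assoc, inf_comm (⨅ i ∈ s, LinearMap.ker (f i))]
    rw [h3] at h1
    omega

theorem ra_step (P : Fam ι F Y) (j : ι) (y b : ι → Y) (l : ℕ) :
    Module.finrank F (relLe P j y b l) ≤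
      ∑ I ∈ (Finset.univ : Finset (Finset ι)).filter (fun I => j ∈ I ∧ I.card ≤ l),
      prj P j y b I := by
  induction l with
  | zero =>
    have h : relLe P j y b 0 = ⊥ := by
      rw [eq_bot_iff]
      intro c hc
      rw [Submodule.mem_bot]
      funext x
      exact hc.2 x (Finset.card_pos.2 (P.ne x.1.1))
    rw [h]
    simp
  | succ l ih =>
    have h1 := ra_many (fun I : Finset ι => ({x : RIdx P j // P.ty x.1.1 = I} → F))
      (relLe P j y b (l + 1)) (fun I => projI P j I)
      ((Finset.univ : Finset (Finset ι)).filter (fun I => j ∈ I ∧ I.card = l + 1))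
    have h2 : Module.finrank F (relLe P j y b (l + 1) ⊓ ⨅ I ∈ (Finset.univ :
        Finset (Finset ι)).filter (fun I => j ∈ I ∧ I.card = l + 1),
        LinearMap.ker (projI P j I) : Submodule F (RIdx P j → F)) ≤
        Module.finrank F (relLe P j y b l) := by
      refine Submodule.finrank_mono ?_
      intro c hc
      rw [Submodule.mem_inf] at hc
      refine ⟨hc.1.1, fun x hx => ?_⟩
      by_cases hx' : l + 1 < (P.ty x.1.1).card
      · exact hc.1.2 x hx'
      · have h3 : (P.ty x.1.1).card = l + 1 := by omega
        have h4 := hc.2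
        simp only [Submodule.mem_iInf] at h4
        have h5 := h4 (P.ty x.1.1) (Finset.mem_filter.2 ⟨Finset.mem_univ _, x.2.1, h3⟩)
        rw [LinearMap.mem_ker] at h5
        exact congrFun h5 ⟨x, rfl⟩
    have h3 : ∑ I ∈ (Finset.univ : Finset (Finset ι)).filter (fun I => j ∈ I ∧ I.card = l + 1),
        Module.finrank F ((relLe P j y b (l + 1)).map (projI P j I)) =
        ∑ I ∈ (Finset.univ : Finset (Finset ι)).filter (fun I => j ∈ I ∧ I.card = l + 1),
        prj P j y b I := by
      refine Finset.sum_congr rfl fun I hI => ?_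
      unfold prj
      rw [(Finset.mem_filter.1 hI).2.2]
    have h4 : (Finset.univ : Finset (Finset ι)).filter (fun I => j ∈ I ∧ I.card ≤ l + 1) =
        (Finset.univ : Finset (Finset ι)).filter (fun I => j ∈ I ∧ I.card ≤ l) ∪
        (Finset.univ : Finset (Finset ι)).filter (fun I => j ∈ I ∧ I.card = l + 1) := by
      ext I
      simp only [Finset.mem_filter, Finset.mem_univ, true_and, Finset.mem_union]
      constructor
      · rintro ⟨h, h'⟩
        rcases Nat.lt_or_ge l I.card with h6 | h6
        · exact Or.inr ⟨h, by omega⟩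
        · exact Or.inl ⟨h, h6⟩
      · rintro (⟨h, h'⟩ | ⟨h, h'⟩)
        · exact ⟨h, by omega⟩
        · exact ⟨h, by omega⟩
    have h5 : Disjoint
        ((Finset.univ : Finset (Finset ι)).filter (fun I => j ∈ I ∧ I.card ≤ l))
        ((Finset.univ : Finset (Finset ι)).filter (fun I => j ∈ I ∧ I.card = l + 1)) := by
      rw [Finset.disjoint_left]
      intro I hI hI'
      have h6 := (Finset.mem_filter.1 hI).2.2
      have h7 := (Finset.mem_filter.1 hI').2.2
      omega
    rw [h4, Finset.sum_union h5, ← h3]
    omega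

theorem dep_le_sum (P : Fam ι F Y) (j : ι) (y b : ι → Y) :
    dep P j y b ≤ ∑ I ∈ (Finset.univ : Finset (Finset ι)).filter (fun I => j ∈ I),
      prj P j y b I := by
  have h1 := ra_step P j y b (Fintype.card ι)
  have h2 : relLe P j y b (Fintype.card ι) = relSpace P j y b := by
    ext c
    refine ⟨fun h => h.1, fun h => ⟨h, fun x hx => ?_⟩⟩
    exact absurd (Finset.card_le_univ (P.ty x.1.1)) (by omega)
  have h3 : (Finset.univ : Finset (Finset ι)).filter (fun I => j ∈ I ∧ I.card ≤ Fintype.card ι) =
      (Finset.univ : Finset (Finset ι)).filter (fun I => j ∈ I) := by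
    ext I
    simp only [Finset.mem_filter, Finset.mem_univ, true_and]
    exact ⟨fun h => h.1, fun h => ⟨h, Finset.card_le_univ I⟩⟩
  rw [h2, h3] at h1
  exact h1

end PRAR
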