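import Pool.Agent.PRAR.R.Def

/-! # Section 5: one block -/

set_option autoImplicit false
set_option linter.unusedSectionVars false

open scoped Classical

noncomputable section

namespace PRAR

variable {ι : Type} [Fintype ι] {F : Type} [Field F] [Fintype F]
variable {Y : Type} [AddCommGroup Y] [Module F Y] [Fintype Y]

/-- Common kernel of the functionals of the other types of size at most `|I|`. -/
def Koth (P : Fam ι F Y) (j : ι) (y b : ι → Y) (I : Finset ι) : Submodule F Y :=
  ⨅ x ∈ (Finset.univ : Finset (RIdx P j)).filter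
    (fun x => P.ty x.1.1 ≠ I ∧ (P.ty x.1.1).card ≤ I.card), LinearMap.ker (rfun P j y b x)

/-- Common kernel of the functionals of type `I`. -/
def Kin (P : Fam ι F Y) (j : ι) (y b : ι → Y) (I : Finset ι) : Submodule F Y :=
  ⨅ x ∈ (Finset.univ : Finset (RIdx P j)).filter (fun x => P.ty x.1.1 = I),
    LinearMap.ker (rfun P j y b x)

theorem card_type (P : Fam ι F Y) (j : ι) (I : Finset ι) (hj : j ∈ I) :
    ((Finset.univ : Finset (RIdx P j)).filter (fun x => P.ty x.1.1 = I)).card =
      P.cnt I * 2 ^ (I.card - 1) := by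
  have h1 : ((Finset.univ : Finset {k : P.κ // P.ty k = I}) ×ˢ (I.erase j).powerset).card =
      P.cnt I * 2 ^ (I.card - 1) := by
    rw [Finset.card_product, Finset.card_powerset, Finset.card_erase_of_mem hj, Finset.card_univ]
    rfl
  rw [← h1]
  refine Finset.card_bij'
    (fun x hx => ((⟨x.1.1, (Finset.mem_filter.1 hx).2⟩ : {k : P.κ // P.ty k = I}), x.1.2))
    (fun z hz => (⟨(z.1.1, z.2), by rw [z.1.2]; exact hj, by
      rw [z.1.2]
      exact Finset.mem_powerset.1 (Finset.mem_product.1 hz).2⟩ : RIdx P j)) ?_ ?_ ?_ ?_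
  · intro x hx
    rw [Finset.mem_product]
    refine ⟨Finset.mem_univ _, ?_⟩
    have h2 := (Finset.mem_filter.1 hx).2
    rw [Finset.mem_powerset]
    have h3 := x.2.2
    rwa [h2] at h3
  · intro z hz
    exact Finset.mem_filter.2 ⟨Finset.mem_univ _, z.1.2⟩
  · intro x hx
    rfl
  · intro z hz
    rfl

/-- The dot product as a map to the dual. -/
def rb_dot (N : Type) [Fintype N] : (N → F) →ₗ[F] Module.Dual F (N → F) where
  toFun c := ∑ x, c x • (LinearMap.proj x : (N → F) →ₗ[F] F)
  map_add' c d := by
    rw [← Finset.sum_add_distrib]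
    exact Finset.sum_congr rfl fun x _ => add_smul _ _ _
  map_smul' a c := by
    rw [RingHom.id_apply, Finset.smul_sum]
    exact Finset.sum_congr rfl fun x _ => by rw [smul_smul]; rfl

theorem rb_dot_apply (N : Type) [Fintype N] (c w : N → F) :
    rb_dot N c w = ∑ x, c x * w x := by
  show (∑ x, c x • (LinearMap.proj x : (N → F) →ₗ[F] F)) w = _
  rw [LinearMap.sum_apply]
  rfl

theorem rb_dot_inj (N : Type) [Fintype N] :
    Function.Injective (rb_dot N : (N → F) →ₗ[F] Module.Dual F (N → F)) := by
  rw [← LinearMap.ker_eq_bot, LinearMap.ker_eq_bot']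
  intro c hc
  funext x
  have h1 := LinearMap.congr_fun hc (Pi.single x 1)
  rw [rb_dot_apply] at h1
  simpa [Pi.single_apply] using h1

theorem rb_orth (N : Type) [Fintype N] (R C : Submodule F (N → F))
    (h : ∀ c ∈ C, ∀ w ∈ R, ∑ x, c x * w x = 0) :
    Module.finrank F R + Module.finrank F C ≤ Fintype.card N := by
  have h1 : C.map (rb_dot N) ≤ R.dualAnnihilator := by
    rintro _ ⟨c, hc, rfl⟩
    rw [Submodule.mem_dualAnnihilator]
    intro w hw
    rw [rb_dot_apply]
    exact h c hc w hw
  have h2 : Module.finrank F (C.map (rb_dot N)) = Module.finrank F C :=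
    (LinearEquiv.finrank_eq (Submodule.equivMapOfInjective _ (rb_dot_inj N) C)).symm
  have h3 := Submodule.finrank_mono h1
  have h4 := Subspace.finrank_add_finrank_dualAnnihilator_eq R
  rw [Module.finrank_fintype_fun_eq_card] at h4
  omega

theorem block_codim (P : Fam ι F Y) (j : ι) (y b : ι → Y) (I : Finset ι) (hj : j ∈ I)
    (K1 : Submodule F Y) (hK : K1 ≤ Koth P j y b I) :
    codim (K1 ⊓ Kin P j y b I) + prj P j y b I ≤ codim K1 + P.cnt I * 2 ^ (I.card - 1) := by
  set N := {x : RIdx P j // P.ty x.1.1 = I} with hN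
  let R : K1 →ₗ[F] (N → F) := LinearMap.pi fun x => (rfun P j y b x.1).domRestrict K1
  have hcardN : Fintype.card N = P.cnt I * 2 ^ (I.card - 1) := by
    rw [← card_type P j I hj, Fintype.card_subtype]
  have hmem : ∀ u : K1, u ∈ LinearMap.ker R ↔ (u : Y) ∈ Kin P j y b I := by
    intro u
    unfold Kin
    rw [LinearMap.mem_ker]
    simp only [Submodule.mem_iInf, Finset.mem_filter, Finset.mem_univ, true_and,
      LinearMap.mem_ker]
    constructor
    · intro h x hx
      exact congrFun h ⟨x, hx⟩
    · intro h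
      funext x
      exact h x.1 x.2
  have hker : (LinearMap.ker R).map K1.subtype = K1 ⊓ Kin P j y b I := by
    ext u
    constructor
    · rintro ⟨u', hu', rfl⟩
      exact ⟨u'.2, (hmem u').1 hu'⟩
    · rintro ⟨hu1, hu2⟩
      exact ⟨⟨u, hu1⟩, (hmem ⟨u, hu1⟩).2 hu2, rfl⟩
  have hkf : Module.finrank F (LinearMap.ker R) = Module.finrank F ↥(K1 ⊓ Kin P j y b I) := by
    rw [← hker]
    exact LinearEquiv.finrank_eq
      (Submodule.equivMapOfInjective _ K1.injective_subtype (LinearMap.ker R))
  have hrn := LinearMap.finrank_range_add_finrank_ker R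
  have horth : Module.finrank F (LinearMap.range R) + prj P j y b I ≤ Fintype.card N := by
    refine rb_orth N _ _ ?_
    rintro _ ⟨c, hc, rfl⟩ _ ⟨u, rfl⟩
    have hu : ∀ x : RIdx P j, P.ty x.1.1 ≠ I → (P.ty x.1.1).card ≤ I.card →
        rfun P j y b x u = 0 := by
      intro x hx1 hx2
      have h1 := hK u.2
      unfold Koth at h1
      simp only [Submodule.mem_iInf, Finset.mem_filter, Finset.mem_univ, true_and,
        LinearMap.mem_ker] at h1
      exact h1 x ⟨hx1, hx2⟩
    have h2 := hc.1 u
    have h3 : ∑ x : RIdx P j, c x * rfun P j y b x u =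
        ∑ x ∈ (Finset.univ : Finset (RIdx P j)).filter (fun x => P.ty x.1.1 = I),
          c x * rfun P j y b x u := by
      symm
      apply Finset.sum_filter_of_ne
      intro x _ hx
      by_contra hne
      apply hx
      by_cases hcd : (P.ty x.1.1).card ≤ I.card
      · rw [hu x hne hcd, mul_zero]
      · rw [hc.2 x (not_le.1 hcd), zero_mul]
    rw [h3] at h2
    rw [← h2]
    symm
    apply Finset.sum_subtype
    intro x
    simp
  unfold codim
  have h5 := Submodule.finrank_quotient_add_finrank (K1 ⊓ Kin P j y b I)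
  have h6 := Submodule.finrank_quotient_add_finrank K1
  rw [hcardN] at horth
  omega

end PRAR
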