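import Pool.Agent.PRAR.Ba

/-! # Section 5: definitions -/

set_option autoImplicit false
set_option linter.unusedSectionVars false

open scoped Classical

noncomputable section

namespace PRAR

variable {ι : Type} [Fintype ι] {F : Type} [Field F] [Fintype F]
variable {Y : Type} [AddCommGroup Y] [Module F Y] [Fintype Y]

/-- Relations supported on forms whose type has at most `l` elements. -/
def relLe (P : Fam ι F Y) (j : ι) (y b : ι → Y) (l : ℕ) : Submodule F (RIdx P j → F) where
  carrier := {c | c ∈ relSpace P j y b ∧ ∀ x : RIdx P j, l < (P.ty x.1.1).card → c x = 0}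
  add_mem' := by
    intro a a' ha ha'
    exact ⟨Submodule.add_mem _ ha.1 ha'.1, fun x hx => by simp [ha.2 x hx, ha'.2 x hx]⟩
  zero_mem' := ⟨Submodule.zero_mem _, fun _ _ => rfl⟩
  smul_mem' := by
    intro c a ha
    exact ⟨Submodule.smul_mem _ _ ha.1, fun x hx => by simp [ha.2 x hx]⟩

/-- Restriction of a coefficient vector to the forms of type exactly `I`. -/
def projI (P : Fam ι F Y) (j : ι) (I : Finset ι) :
    (RIdx P j → F) →ₗ[F] ({x : RIdx P j // P.ty x.1.1 = I} → F) :=
  LinearMap.funLeft F F Subtype.val

/-- Dimension of the projection to type `I` of the relations supported on types of size `≤ |I|`. -/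
def prj (P : Fam ι F Y) (j : ι) (y b : ι → Y) (I : Finset ι) : ℕ :=
  Module.finrank F ((relLe P j y b I.card).map (projI P j I))

/-- The block point with index `β` of a grid of pairs: first components. -/
def bY {n : ℕ} (yb : ι → Fin n → Y × Y) (β : ι → Fin n) : ι → Y := fun i => (yb i (β i)).1

/-- The block point with index `β` of a grid of pairs: second components. -/
def bB {n : ℕ} (yb : ι → Fin n → Y × Y) (β : ι → Fin n) : ι → Y := fun i => (yb i (β i)).2

end PRAR
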